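import Mathlib
import Pool.Agent.W2helper76.FR.Stm

/-!
# Piece X: a theorem of Ax type from logarithmic derivatives
-/

set_option autoImplicit false

open Polynomial

namespace Pool.Agent.W2helper53.FR

open Pool.Agent.W2helper76.FR

/-! ### Derivations and algebraic elements -/

/-- the field of the elements killed by a derivation -/
def kerField {κ C : Type} [Field κ] [Field C] [Algebra κ C] (D : Derivation κ C C) :
    IntermediateField κ C where
  carrier := {x | D x = 0}
  mul_mem' {a b} ha hb := by
    simp only [Set.mem_ofPred_eq] at *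
    simp [ha, hb]
  add_mem' {a b} ha hb := by
    simp only [Set.mem_ofPred_eq] at *
    simp [ha, hb]
  algebraMap_mem' a := by simp
  inv_mem' a ha := by
    simp only [Set.mem_ofPred_eq] at *
    simp [Derivation.leibniz_inv, ha]

theorem mem_kerField {κ C : Type} [Field κ] [Field C] [Algebra κ C] (D : Derivation κ C C)
    (x : C) : x ∈ kerField D ↔ D x = 0 := Iff.rfl

/-- the same derivation, over its field of constants -/
def overKer {κ C : Type} [Field κ] [Field C] [Algebra κ C] (D : Derivation κ C C) :
    Derivation (kerField D) C C where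
  toFun := D
  map_add' := by simp
  map_smul' a x := by
    have h : D (a : C) = 0 := a.2
    change D ((a : C) * x) = (a : C) * D x
    simp [h]
  map_one_eq_zero' := by
    change D 1 = 0
    simp
  leibniz' a b := by
    change D (a * b) = a • D b + b • D a
    simp

theorem kill_algebraic {κ C : Type} [Field κ] [Field C] [Algebra κ C] [CharZero κ]
    (D : Derivation κ C C) {x : C} (hx : IsAlgebraic (kerField D) x) : D x = 0 := by
  have : CharZero (kerField D) := charZero_of_injective_algebraMap
    (algebraMap κ (kerField D)).injective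
  have h1 : aeval x (derivative (minpoly (kerField D) x)) • (overKer D) x = 0 := by
    rw [← (overKer D).map_aeval (minpoly (kerField D) x) x, minpoly.aeval, map_zero]
  have h2 : aeval x (derivative (minpoly (kerField D) x)) ≠ 0 :=
    ((minpoly.irreducible hx.isIntegral).separable).aeval_derivative_ne_zero (minpoly.aeval _ _)
  rcases smul_eq_zero.1 h1 with h | h
  · exact absurd h h2
  · exact h

/-- step 4, first half: a maximal algebraically independent subset, and derivations killing it -/
theorem exists_max {κ C : Type} [Field κ] [Field C] [Algebra κ C] [CharZero κ] {t : ℕ}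
    (y : Fin t → C) : ∃ I : Finset (Fin t), AlgebraicIndependent κ (fun i : I => y i) ∧
      ∀ D : Derivation κ C C, (∀ i ∈ I, D (y i) = 0) → ∀ i, D (y i) = 0 := by
  classical
  have hfin : (Finset.univ.filter (fun I : Finset (Fin t) =>
      AlgebraicIndependent κ (fun i : I => y i))).Nonempty := by
    refine ⟨∅, ?_⟩
    simp only [Finset.mem_filter, Finset.mem_univ, true_and]
    have : IsEmpty ((∅ : Finset (Fin t)) : Type) := by
      constructor
      rintro ⟨x, hx⟩
      simp at hx
    rw [algebraicIndependent_empty_type_iff]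
    exact (algebraMap κ C).injective
  obtain ⟨I, hI, hmax⟩ := Finset.exists_max_image _ Finset.card hfin
  simp only [Finset.mem_filter, Finset.mem_univ, true_and] at hI hmax
  refine ⟨I, hI, fun D hD j => ?_⟩
  by_cases hj : j ∈ I
  · exact hD j hj
  have hI' : AlgebraicIndepOn κ y (I : Set (Fin t)) := hI
  have hno : ¬ AlgebraicIndepOn κ y (insert j (I : Set (Fin t))) := by
    intro h
    have h2 : AlgebraicIndependent κ (fun i : (insert j I : Finset (Fin t)) => y i) := by
      have h3 : AlgebraicIndepOn κ y ((insert j I : Finset (Fin t)) : Set (Fin t)) := by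
        rw [Finset.coe_insert]; exact h
      exact h3
    have h4 := hmax _ h2
    rw [Finset.card_insert_of_notMem hj] at h4
    omega
  rw [AlgebraicIndepOn.insert_iff (by simpa using hj)] at hno
  have halg : IsAlgebraic (Algebra.adjoin κ (y '' (I : Set (Fin t)))) (y j) := by
    by_contra hc
    exact hno ⟨hI', hc⟩
  have hle : Algebra.adjoin κ (y '' (I : Set (Fin t))) ≤ (kerField D).toSubalgebra := by
    rw [Algebra.adjoin_le_iff]
    rintro _ ⟨i, hi, rfl⟩
    exact hD i (by simpa using hi)
  apply kill_algebraic D
  obtain ⟨p, hp0, hp⟩ := halg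
  refine ⟨p.map (Subalgebra.inclusion hle).toRingHom, ?_, ?_⟩
  · intro h0
    apply hp0
    exact Polynomial.map_injective _ (Subalgebra.inclusion_injective hle) (by simpa using h0)
  · rw [Polynomial.aeval_def, Polynomial.eval₂_map]
    rw [Polynomial.aeval_def] at hp
    exact hp

/-! ### Step 2: stable subspaces contain constants -/

theorem const_of_stable {κ C : Type} [Field κ] [Field C] [Algebra κ C]
    (Δ : Set (Derivation κ C C)) (hΔ : ∀ x : C, (∀ D ∈ Δ, D x = 0) → ∃ a : κ, x = algebraMap κ C a)
    {t : ℕ} (V : Submodule C (Fin t → C)) (hV : ∀ D ∈ Δ, ∀ a ∈ V, (fun i => D (a i)) ∈ V)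
    (hne : V ≠ ⊥) : ∃ c : Fin t → κ, c ≠ 0 ∧ (fun i => algebraMap κ C (c i)) ∈ V := by
  classical
  have hex : ∃ k : ℕ, ∃ a ∈ V, a ≠ 0 ∧ (Finset.univ.filter (fun i => a i ≠ 0)).card = k := by
    obtain ⟨a, ha, ha0⟩ := (Submodule.ne_bot_iff V).1 hne
    exact ⟨_, a, ha, ha0, rfl⟩
  obtain ⟨a, ha, ha0, hk⟩ := Nat.find_spec hex
  have hmin : ∀ b ∈ V, (Finset.univ.filter (fun i => b i ≠ 0)).card <
      (Finset.univ.filter (fun i => a i ≠ 0)).card → b = 0 := by
    intro b hb hlt
    by_contra hb0
    rw [hk] at hlt
    exact Nat.find_min hex hlt ⟨b, hb, hb0, rfl⟩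
  obtain ⟨i₀, hi₀⟩ := Function.ne_iff.1 ha0
  simp only [Pi.zero_apply] at hi₀
  have hb : (a i₀)⁻¹ • a ∈ V := V.smul_mem _ ha
  have hzero : ∀ D ∈ Δ, (fun i => D (((a i₀)⁻¹ • a) i)) = 0 := by
    intro D hD
    apply hmin _ (hV D hD _ hb)
    apply Finset.card_lt_card
    rw [Finset.ssubset_iff_of_subset]
    · refine ⟨i₀, by simp [hi₀], ?_⟩
      have h1 : ((a i₀)⁻¹ • a) i₀ = 1 := by
        simp [hi₀]
      simp only [Finset.mem_filter, Finset.mem_univ, true_and, not_not]
      rw [h1]
      simp
    · intro i hi
      simp only [Finset.mem_filter, Finset.mem_univ, true_and] at hi ⊢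
      intro h0
      apply hi
      simp [h0]
  have hc : ∀ i, ∃ c : κ, ((a i₀)⁻¹ • a) i = algebraMap κ C c := by
    intro i
    apply hΔ
    intro D hD
    exact congrFun (hzero D hD) i
  choose c hc using hc
  refine ⟨c, ?_, ?_⟩
  · intro h
    have h1 := hc i₀
    rw [h] at h1
    simp [hi₀] at h1
  · have : (fun i => algebraMap κ C (c i)) = (a i₀)⁻¹ • a := by
      funext i
      exact (hc i).symm
    rw [this]
    exact hb

/-! ### Step 1: the common zeros -/

section main

variable {κ C : Type} [Field κ] [Field C] [Algebra κ C] {t n s : ℕ}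

/-- the relations between the logarithmic derivatives -/
def A (κ : Type) {C : Type} [Field κ] [Field C] [Algebra κ C] {t : ℕ} (y : Fin t → C) :
    Submodule C (Fin t → C) where
  carrier := {a | ∀ D : Derivation κ C C, ∑ i, a i * (D (y i) / y i) = 0}
  zero_mem' := by
    intro D
    simp
  add_mem' {a b} ha hb := by
    intro D
    simp only [Pi.add_apply, add_mul, Finset.sum_add_distrib, ha D, hb D, add_zero]
  smul_mem' c a ha := by
    intro D
    simp only [Pi.smul_apply, smul_eq_mul, mul_assoc, ← Finset.mul_sum, ha D, mul_zero]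

/-- the relations between the columns -/
def B {κ C : Type} [Field κ] [Field C] [Algebra κ C] {t n : ℕ} (r : Fin t → Fin n → κ) :
    Submodule C (Fin t → C) where
  carrier := {a | ∀ j, ∑ i, a i * algebraMap κ C (r i j) = 0}
  zero_mem' := by
    intro j
    simp
  add_mem' {a b} ha hb := by
    intro j
    simp only [Pi.add_apply, add_mul, Finset.sum_add_distrib, ha j, hb j, add_zero]
  smul_mem' c a ha := by
    intro j
    simp only [Pi.smul_apply, smul_eq_mul, mul_assoc, ← Finset.mul_sum, ha j, mul_zero]

theorem mem_A (y : Fin t → C) (a : Fin t → C) :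
    a ∈ A κ y ↔ ∀ D : Derivation κ C C, ∑ i, a i * (D (y i) / y i) = 0 := Iff.rfl

theorem mem_B (r : Fin t → Fin n → κ) (a : Fin t → C) :
    a ∈ B (C := C) r ↔ ∀ j, ∑ i, a i * algebraMap κ C (r i j) = 0 := Iff.rfl

theorem B_stable (r : Fin t → Fin n → κ) (D : Derivation κ C C) {a : Fin t → C}
    (ha : a ∈ B (C := C) r) : (fun i => D (a i)) ∈ B (C := C) r := by
  intro j
  have h := congrArg D (ha j)
  rw [map_sum, map_zero] at h
  rw [← h]
  refine Finset.sum_congr rfl fun i _ => ?_
  rw [Derivation.leibniz, Derivation.map_algebraMap]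
  simp [mul_comm]

theorem dlog_comm (D E : Derivation κ C C) {y : C} (hy : y ≠ 0) :
    D (E y / y) = E (D y / y) + (⁅D, E⁆ : Derivation κ C C) y / y := by
  rw [Derivation.commutator_apply, Derivation.leibniz_div, Derivation.leibniz_div]
  simp only [smul_eq_mul]
  field_simp
  ring

theorem A_stable (y : Fin t → C) (hy : ∀ i, y i ≠ 0) (r : Fin t → Fin n → κ) (q : Fin t → Fin s → κ)
    (lam : Fin n → Derivation κ C C → C) (mu : Fin s → Derivation κ C C → C)
    (D : Derivation κ C C)
    (hform : ∀ i, D (y i) / y i =
      ∑ j, algebraMap κ C (r i j) * lam j D + ∑ l, algebraMap κ C (q i l) * mu l D)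
    {a : Fin t → C} (ha : a ∈ A κ y) (hr : a ∈ B (C := C) r) (hq : a ∈ B (C := C) q) :
    (fun i => D (a i)) ∈ A κ y := by
  intro E
  have h1 := congrArg D (ha E)
  rw [map_sum, map_zero] at h1
  have h2 : ∀ i, D (a i * (E (y i) / y i)) = D (a i) * (E (y i) / y i) +
      (a i * E (D (y i) / y i) + a i * ((⁅D, E⁆ : Derivation κ C C) (y i) / y i)) := by
    intro i
    rw [Derivation.leibniz, dlog_comm D E (hy i)]
    simp only [smul_eq_mul]
    ring
  simp only [h2, Finset.sum_add_distrib, ha ⁅D, E⁆, add_zero] at h1
  have h3 : ∑ i, a i * E (D (y i) / y i) = 0 := by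
    have h4 : ∀ i, E (D (y i) / y i) = ∑ j, algebraMap κ C (r i j) * E (lam j D) +
        ∑ l, algebraMap κ C (q i l) * E (mu l D) := by
      intro i
      rw [hform i, map_add, map_sum, map_sum]
      simp only [Derivation.leibniz, Derivation.map_algebraMap, smul_eq_mul, mul_zero, add_zero]
    simp only [h4, mul_add, Finset.sum_add_distrib, Finset.mul_sum]
    rw [Finset.sum_comm, Finset.sum_comm (s := Finset.univ) (t := Finset.univ)
      (f := fun i l => a i * (algebraMap κ C (q i l) * E (mu l D)))]
    have e1 : ∀ j, ∑ i, a i * (algebraMap κ C (r i j) * E (lam j D)) = 0 := by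
      intro j
      have := hr j
      simp only [← mul_assoc, ← Finset.sum_mul, this, zero_mul]
    have e2 : ∀ l, ∑ i, a i * (algebraMap κ C (q i l) * E (mu l D)) = 0 := by
      intro l
      have := hq l
      simp only [← mul_assoc, ← Finset.sum_mul, this, zero_mul]
    simp only [e1, e2, Finset.sum_const_zero, add_zero]
  rw [h3, add_zero] at h1
  exact h1

end main

/-! ### Steps 3 and 4 -/

/-- step 4: the dimension of the space of relations -/
theorem finrank_A {κ C : Type} [Field κ] [Field C] [Algebra κ C] [CharZero κ] {t : ℕ}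
    (y : Fin t → C) (hy : ∀ i, y i ≠ 0) : ∃ I : Finset (Fin t),
      AlgebraicIndependent κ (fun i : I => y i) ∧ t ≤ I.card + Module.finrank C (A κ y) := by
  classical
  obtain ⟨I, hI, hkill⟩ := exists_max (κ := κ) y
  refine ⟨I, hI, ?_⟩
  -- the space of the values
  let W : Derivation κ C C →ₗ[C] (Fin t → C) :=
    { toFun := fun D i => D (y i) / y i
      map_add' := by
        intro D E
        funext i
        simp [add_div]
      map_smul' := by
        intro c D
        funext i
        simp [mul_div_assoc] }
  have hW : ∀ D i, W D i = D (y i) / y i := fun D i => rfl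
  let S : Submodule C (Fin t → C) := LinearMap.range W
  let ρ : S →ₗ[C] (I → C) :=
    { toFun := fun v i => v.1 i.1
      map_add' := by intro a b; rfl
      map_smul' := by intro a b; rfl }
  have hρ : Function.Injective ρ := by
    rw [← LinearMap.ker_eq_bot, LinearMap.ker_eq_bot']
    rintro ⟨v, D, rfl⟩ h
    apply Subtype.ext
    funext i
    have h1 : ∀ i ∈ I, D (y i) = 0 := by
      intro i hi
      have h2 := congrFun h ⟨i, hi⟩
      have h3 : D (y i) / y i = 0 := h2
      rcases div_eq_zero_iff.1 h3 with h4 | h4
      · exact h4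
      · exact absurd h4 (hy i)
    change D (y i) / y i = 0
    rw [hkill D h1 i, zero_div]
  have hS : Module.finrank C S ≤ I.card := by
    have := LinearMap.finrank_le_finrank_of_injective hρ
    simpa using this
  let φ : (Fin t → C) →ₗ[C] Module.Dual C S :=
    { toFun := fun a =>
        { toFun := fun v => ∑ i, a i * v.1 i
          map_add' := by
            intro v w
            simp [mul_add, Finset.sum_add_distrib]
          map_smul' := by
            intro c v
            simp only [Submodule.coe_smul, Pi.smul_apply, smul_eq_mul, RingHom.id_apply,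
              Finset.mul_sum]
            refine Finset.sum_congr rfl fun i _ => ?_
            ring }
      map_add' := by
        intro a b
        ext v
        simp [add_mul, Finset.sum_add_distrib]
      map_smul' := by
        intro c a
        ext v
        simp [Finset.mul_sum, mul_assoc] }
  have hker : LinearMap.ker φ = A κ y := by
    ext a
    rw [LinearMap.mem_ker, mem_A]
    constructor
    · intro h D
      have := LinearMap.congr_fun h ⟨W D, D, rfl⟩
      exact this
    · intro h
      ext ⟨v, D, rfl⟩
      exact h D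
  have hrn := LinearMap.finrank_range_add_finrank_ker φ
  have hle : Module.finrank C (LinearMap.range φ) ≤ I.card := by
    refine (Submodule.finrank_le _).trans ?_
    rw [Subspace.dual_finrank_eq]
    exact hS
  rw [hker] at hrn
  have hd : Module.finrank C (Fin t → C) = t := by simp
  omega

theorem ax (h : LogStm) : AxStm := by
  classical
  intro κ C _ _ _ _ _ _ Δ hΔ t n s y hy hmul r q lam mu hform hdual
  -- `A ∩ B = 0`
  have hV : A κ y ⊓ (B (C := C) r ⊓ B (C := C) q) = ⊥ := by
    by_contra hne
    obtain ⟨c, hc0, hc⟩ := const_of_stable Δ hΔ (A κ y ⊓ (B (C := C) r ⊓ B (C := C) q))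
      (fun D hD a ha => ⟨A_stable y hy r q lam mu D (hform D hD) ha.1 ha.2.1 ha.2.2,
        B_stable r D ha.2.1, B_stable q D ha.2.2⟩) hne
    obtain ⟨m, a, hm, hma⟩ := h κ C t y hy c hc0 hc.1
    exact hm (hmul m a hma)
  -- step 3
  let T : A κ y →ₗ[C] (Fin n → C) :=
    { toFun := fun a j => ∑ i, a.1 i * algebraMap κ C (r i j)
      map_add' := by
        intro a b
        funext j
        simp [add_mul, Finset.sum_add_distrib]
      map_smul' := by
        intro c a
        funext j
        simp [Finset.mul_sum, mul_assoc] }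
  have hT : Function.Injective T := by
    rw [← LinearMap.ker_eq_bot, LinearMap.ker_eq_bot']
    rintro ⟨a, ha⟩ h0
    have hr : a ∈ B (C := C) r := fun j => congrFun h0 j
    have hq : a ∈ B (C := C) q := by
      intro l
      obtain ⟨D, hD, hDl⟩ := hdual l
      have h1 := ha D
      simp only [hform D hD, mul_add, Finset.sum_add_distrib, Finset.mul_sum] at h1
      rw [Finset.sum_comm, Finset.sum_comm (s := Finset.univ) (t := Finset.univ)
        (f := fun i l => a i * (algebraMap κ C (q i l) * mu l D))] at h1
      have e1 : ∀ j, ∑ i, a i * (algebraMap κ C (r i j) * lam j D) = 0 := by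
        intro j
        have := hr j
        simp only [← mul_assoc, ← Finset.sum_mul, this, zero_mul]
      simp only [e1, Finset.sum_const_zero, zero_add, hDl] at h1
      rw [Finset.sum_eq_single l] at h1
      · simpa using h1
      · intro b _ hb
        simp [hb]
      · intro hb
        exact absurd (Finset.mem_univ _) hb
    have hmem : a ∈ A κ y ⊓ (B (C := C) r ⊓ B (C := C) q) := ⟨ha, hr, hq⟩
    rw [hV, Submodule.mem_bot] at hmem
    exact Subtype.ext hmem
  have hdim : Module.finrank C (A κ y) ≤ n := by
    have := LinearMap.finrank_le_finrank_of_injective hT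
    simpa using this
  obtain ⟨I, hI, hle⟩ := finrank_A (κ := κ) y hy
  exact ⟨I, by omega, hI⟩

end Pool.Agent.W2helper53.FR
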